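import Pool.Agent.Helper74.HG.GoalsG
import Pool.Agent.Helper2.HG.TRA

/-! Project HG part 3, packet TRAG: stable equivalence is transitive. -/

namespace Pool.Agent.Helper77.HG.TRAG

open MvPolynomial Pool.Agent.Helper74.HG Pool.Agent.Helper2.HG.TRA

theorem t0 : Pool.Agent.Helper74.HG.ISOG := by
  intro σ τ φ f
  refine ⟨0, (renameEquiv ℤ (Equiv.sumEmpty σ (Fin 0 ⊕ Fin 0))).trans φ, ?_⟩
  have h1 : (renameEquiv ℤ (Equiv.sumEmpty σ (Fin 0 ⊕ Fin 0))) (stabS (Fin 0) f) = f := by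
    unfold stabS
    rw [Finset.univ_eq_empty, Finset.sum_empty, add_zero, renameEquiv_apply, rename_rename]
    have : (⇑(Equiv.sumEmpty σ (Fin 0 ⊕ Fin 0)) ∘ Sum.inl) = id := by
      funext i; simp
    rw [this, rename_id_apply]
  rw [AlgEquiv.trans_apply, h1]

theorem t : Pool.Agent.Helper74.HG.TRAG := by
  rintro σ τ υ f g h ⟨k, φ, rfl⟩ ⟨k', ψ, rfl⟩
  refine ⟨k + k', ((renameEquiv ℤ (reidx σ k k')).trans (exe φ (Fin k' ⊕ Fin k'))).trans ψ, ?_⟩
  have h1 : (renameEquiv ℤ (reidx σ k k')) (stabS (Fin (k + k')) f) =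
      stabS (Fin k') (stabS (Fin k) f) := by
    unfold stabS
    rw [renameEquiv_apply, map_add, map_sum, rename_rename, ← finSumFinEquiv.sum_comp,
      Fintype.sum_sum_type, map_add, map_sum, rename_rename, ← add_assoc]
    congr 1
    · congr 1
      refine Finset.sum_congr rfl fun j _ => ?_
      simp [reidx]
    · refine Finset.sum_congr rfl fun j _ => ?_
      simp [reidx]
  rw [AlgEquiv.trans_apply, AlgEquiv.trans_apply, h1]
  congr 1
  rw [exe_apply]
  unfold stabS
  rw [map_add, exh_inl, map_sum]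
  congr 1
  refine Finset.sum_congr rfl fun j _ => ?_
  rw [map_mul, exh_inr, exh_inr]

end Pool.Agent.Helper77.HG.TRAG
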